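import Mathlib
import Pool.Agent.H93S.GV.Chan

/-!
# The Gilbert–Varshamov bound is tight at `δ` iff codes of relative distance `δ` are reliable over
every symmetric channel whose capacity exceeds the Gilbert–Varshamov rate

`A(n, d)` is the largest size of a binary code of length `n` and minimum distance `d`, and
`R(δ) = limsup (1/n) log₂ A(n, ⌈δ n⌉)`.  By Shannon's converse, codes of rate `R(δ)` can be decoded
over a channel only if its capacity is at least `R(δ) ≥ 1 - H₂(δ)`.  We show that the question whether
`R(δ) = 1 - H₂(δ)` is the question whether all codes of relative distance `δ` are reliable over every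
binary-input memoryless symmetric channel (binary symmetric channels, erasure channels, channels
with any finite output alphabet) of capacity greater than `1 - H₂(δ)`; and that it is enough to know
this for the binary erasure channels alone, or for any family of symmetric channels whose capacities
come arbitrarily close to `1 - H₂(δ)`.

Proof.  For binary symmetric channels the implication from the tightness is the earlier library result
`Pool.Agent.H2x430.RandomErrors` of helper2.  A symmetric channel is a mixture of binary symmetric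
channels, with the state of the channel known at the output.  By the inequality of Wyner and Ziv, in
the form of a supporting line applied one coordinate after another, the entropy of the input word
given the output of the mixture is at most its entropy given the output of the binary symmetric
channel of the same capacity, for every distribution of the input word.  The inequality of Fano and a
decoder sampled from the posterior distribution turn this into a comparison of error probabilities.
The converse is a strong converse, by Chernoff's bound for the information density.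
-/

set_option autoImplicit false

open Filter Finset

namespace Pool.Agent.Results.MP_0430e4_lc.EveryChannel

/-- `A(n,d)`: the largest size of a binary code of length `n` with minimum distance at least `d`. -/
noncomputable def A (n d : ℕ) : ℕ :=
  sSup {k | ∃ C : Finset (Fin n → Bool),
    (∀ x ∈ C, ∀ y ∈ C, x ≠ y → d ≤ hammingDist x y) ∧ C.card = k}

/-- The asymptotic rate `R(δ) = limsup (1/n) log₂ A(n, ⌈δ n⌉)`. -/
noncomputable def R (δ : ℝ) : ℝ :=
  limsup (fun n : ℕ => Real.logb 2 (A n ⌈δ * n⌉₊) / n) atTop

/-- The lower asymptotic rate `liminf (1/n) log₂ A(n, ⌈δ n⌉)`. -/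
noncomputable def Rlow (δ : ℝ) : ℝ :=
  liminf (fun n : ℕ => Real.logb 2 (A n ⌈δ * n⌉₊) / n) atTop

/-- The binary entropy function `H₂(x) = - x log₂ x - (1 - x) log₂ (1 - x)`. -/
noncomputable def H (x : ℝ) : ℝ := -x * Real.logb 2 x - (1 - x) * Real.logb 2 (1 - x)

/-- A binary-input symmetric channel with finite output alphabet `Out`: `prob a y` is the probability
of the output `y` for the input `a`, and the involution `flip` of the output alphabet exchanges the
two output distributions. -/
structure Channel where
  Out : Type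
  [fintype : Fintype Out]
  prob : Bool → Out → ℝ
  flip : Out → Out
  nonneg : ∀ a y, 0 ≤ prob a y
  sum_eq_one : ∀ a, ∑ y, prob a y = 1
  flip_flip : ∀ y, flip (flip y) = y
  symm : ∀ a y, prob (!a) y = prob a (flip y)

attribute [instance] Channel.fintype

/-- The capacity of a symmetric channel in bits: the mutual information `I(X; Y) = 1 - H(X | Y)` of
a uniform input bit `X` and the output `Y`. -/
noncomputable def Channel.capacity (W : Channel) : ℝ :=
  1 - ∑ y, (W.prob false y + W.prob true y) / 2 *
    H (W.prob true y / (W.prob false y + W.prob true y))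

/-- The error probability of the decoder `D` for the code `C` over the memoryless channel `W`: a
uniformly random codeword `x ∈ C` is sent, each letter is sent independently over `W`, and the
received word `y` is decoded as `D y`; it is the probability that `D y ≠ x`. -/
noncomputable def Channel.errorProb (W : Channel) {n : ℕ} (C : Finset (Fin n → Bool))
    (D : (Fin n → W.Out) → (Fin n → Bool)) : ℝ := by
  classical
  exact (∑ x ∈ C, ∑ y ∈ univ.filter (fun y => D y ≠ x), ∏ i, W.prob (x i) (y i)) / C.card

/-- Every nonempty binary code of length `n` and minimum distance at least `d` has a decoder with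
error probability at most `ε` over the channel `W`. -/
def Channel.AllCorrect (W : Channel) (n d : ℕ) (ε : ℝ) : Prop :=
  ∀ C : Finset (Fin n → Bool), C.Nonempty →
    (∀ x ∈ C, ∀ y ∈ C, x ≠ y → d ≤ hammingDist x y) →
    ∃ D : (Fin n → W.Out) → (Fin n → Bool), W.errorProb C D ≤ ε

/-- The binary erasure channel: a letter is erased with probability `e`, otherwise it is received
correctly. -/
def erasure (e : ℝ) (h0 : 0 ≤ e) (h1 : e ≤ 1) : Channel where
  Out := Option Bool
  prob a y := match y with
    | none => e
    | some b => if b = a then 1 - e else 0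
  flip := Option.map not
  nonneg := by
    intro a y
    rcases y with _ | b
    · exact h0
    · show 0 ≤ (if b = a then 1 - e else 0)
      split_ifs <;> linarith
  sum_eq_one := by
    intro a
    rw [Fintype.sum_option, Fintype.sum_bool]
    cases a <;> simp
  flip_flip := by
    intro y
    rcases y with _ | b <;> simp
  symm := by
    intro a y
    rcases y with _ | b
    · rfl
    · cases a <;> cases b <;> simp

lemma erasure_capacity {e : ℝ} (h0 : 0 ≤ e) (h1 : e ≤ 1) : (erasure e h0 h1).capacity = 1 - e := by
  unfold Channel.capacity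
  have e1 : ∑ y : (erasure e h0 h1).Out, ((erasure e h0 h1).prob false y +
      (erasure e h0 h1).prob true y) / 2 *
      H ((erasure e h0 h1).prob true y / ((erasure e h0 h1).prob false y +
        (erasure e h0 h1).prob true y)) = e := by
    have e2 : ∀ F : Option Bool → ℝ, ∑ y : (erasure e h0 h1).Out, F y =
        F none + (F (some true) + F (some false)) := by
      intro F
      have : ∑ y : Option Bool, F y = F none + (F (some true) + F (some false)) := by
        rw [Fintype.sum_option, Fintype.sum_bool]
      exact this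
    refine (e2 fun y => ((erasure e h0 h1).prob false y + (erasure e h0 h1).prob true y) / 2 *
      H ((erasure e h0 h1).prob true y / ((erasure e h0 h1).prob false y +
        (erasure e h0 h1).prob true y))).trans ?_
    have p1 : ∀ a, (erasure e h0 h1).prob a none = e := fun _ => rfl
    have p2 : ∀ a b, (erasure e h0 h1).prob a (some b) = if b = a then 1 - e else 0 := fun _ _ => rfl
    simp only [p1, p2]
    have q1 : H 0 = 0 := by simp [H]
    have q2 : H 1 = 0 := by simp [H]
    have q3 : H (1 / 2) = 1 := by
      unfold H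
      have : Real.logb 2 (1 / 2) = -1 := by
        rw [one_div, Real.logb_inv, Real.logb_self_eq_one (by norm_num)]
      rw [show (1 : ℝ) - 1 / 2 = 1 / 2 by norm_num, this]
      norm_num
    have q4 : (e + e) / 2 * H (e / (e + e)) = e := by
      rcases eq_or_ne e 0 with h | h
      · rw [h]; simp
      · rw [show e / (e + e) = 1 / 2 by field_simp; ring, q3]
        ring
    have q5 : (1 - e) * H ((1 - e) / (1 - e)) = 0 := by
      rcases eq_or_ne (1 - e) 0 with h | h
      · rw [h]; simp
      · rw [div_self h, q2, mul_zero]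
    rw [q4]
    simp only [if_true, Bool.false_eq_true, if_false, Bool.true_eq_false, zero_add, add_zero,
      zero_div]
    rw [q1, mul_zero, add_zero, div_mul_eq_mul_div, q5]
    simp
  rw [e1]

open Pool.Agent.H93S.GV in
lemma allCorrect_iff (W : Channel) (n d : ℕ) (ε : ℝ) :
    W.AllCorrect n d ε ↔ CorrectsP W.prob n d ε := by
  unfold Channel.AllCorrect CorrectsP
  refine forall_congr' fun C => forall_congr' fun _ => ?_
  refine forall_congr' fun _ => exists_congr fun D => ?_
  unfold Channel.errorProb chErr
  convert Iff.rfl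

open Pool.Agent.H93S.GV in
lemma capacity_eq (W : Channel) : W.capacity = capP W.prob := rfl

open Pool.Agent.H93S.GV in
lemma below {δ p c : ℝ} (W : Channel) (hp0 : 0 < p) (hp : p < 1 / 2) (hcap : 1 - H p ≤ W.capacity)
    (hc : 0 < c) : ∀ᶠ n : ℕ in atTop,
      Pool.Agent.H2x430.Corrects p n ⌈δ * n⌉₊ ((2 : ℝ) ^ (-(c * n))) →
      W.AllCorrect n ⌈δ * n⌉₊ ((2 : ℝ) ^ (-(c / 4 * n))) := by
  filter_upwards [corrects_of W.nonneg W.sum_eq_one W.flip_flip (W.symm false) hp0 hp hcap hc]
    with n hn hcor
  exact (allCorrect_iff _ _ _ _).2 (hn _ hcor)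

open Pool.Agent.H93S.GV in
lemma above_cap {δ r η : ℝ} (W : Channel) (hr : W.capacity < r) (hη : η < 1) :
    ∀ᶠ n : ℕ in atTop, r < Real.logb 2 (A n ⌈δ * n⌉₊) / n → ¬ W.AllCorrect n ⌈δ * n⌉₊ η := by
  filter_upwards [above (δ := δ) W.nonneg W.sum_eq_one W.flip_flip (W.symm false) hr hη]
    with n hn h1 h2
  exact hn h1 ((allCorrect_iff _ _ _ _).1 h2)

/-- For `0 < δ < 1/2` the following are equivalent: (1) the Gilbert–Varshamov bound is tight at `δ`;
(2) over every binary-input memoryless symmetric channel of capacity greater than `1 - H₂(δ)`, all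
codes of length `n` and minimum distance at least `δ n` have, for large `n`, error probability at most
`2^(-c n)`, for some `c > 0`; (3) over every binary erasure channel with erasure probability
`e < H₂(δ)` they have, for large `n`, error probability at most some `η < 1`; (4) there are symmetric
channels of capacity arbitrarily close to (or below) `1 - H₂(δ)` over which they have, for large `n`,
error probability at most some `η < 1`.  The same equivalences hold for the lower asymptotic rate when
`for large n` is replaced by `for infinitely many n`. -/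
theorem result (δ : ℝ) (h0 : 0 < δ) (h1 : δ < 1 / 2) :
    [R δ = 1 - H δ,
      ∀ W : Channel, 1 - H δ < W.capacity → ∃ c : ℝ, 0 < c ∧
        ∀ᶠ n : ℕ in atTop, W.AllCorrect n ⌈δ * n⌉₊ ((2 : ℝ) ^ (-(c * n))),
      ∀ (e : ℝ) (he0 : 0 ≤ e) (he1 : e ≤ 1), e < H δ → ∃ η : ℝ, η < 1 ∧
        ∀ᶠ n : ℕ in atTop, (erasure e he0 he1).AllCorrect n ⌈δ * n⌉₊ η,
      ∀ ε : ℝ, 0 < ε → ∃ W : Channel, W.capacity < 1 - H δ + ε ∧ ∃ η : ℝ, η < 1 ∧
        ∀ᶠ n : ℕ in atTop, W.AllCorrect n ⌈δ * n⌉₊ η].TFAE ∧
    [Rlow δ = 1 - H δ,
      ∀ W : Channel, 1 - H δ < W.capacity → ∃ c : ℝ, 0 < c ∧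
        ∃ᶠ n : ℕ in atTop, W.AllCorrect n ⌈δ * n⌉₊ ((2 : ℝ) ^ (-(c * n))),
      ∀ (e : ℝ) (he0 : 0 ≤ e) (he1 : e ≤ 1), e < H δ → ∃ η : ℝ, η < 1 ∧
        ∃ᶠ n : ℕ in atTop, (erasure e he0 he1).AllCorrect n ⌈δ * n⌉₊ η,
      ∀ ε : ℝ, 0 < ε → ∃ W : Channel, W.capacity < 1 - H δ + ε ∧ ∃ η : ℝ, η < 1 ∧
        ∃ᶠ n : ℕ in atTop, W.AllCorrect n ⌈δ * n⌉₊ η].TFAE := by
  have hmono : ∀ (W : Channel) {n d : ℕ} {ε ε' : ℝ}, W.AllCorrect n d ε → ε ≤ ε' →
      W.AllCorrect n d ε' := fun W n d ε ε' h he C h1 h2 => by
    obtain ⟨D, hD⟩ := h C h1 h2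
    exact ⟨D, hD.trans he⟩
  have hb1 := Pool.Agent.Results.MP_0430e4_lc.ConstantWeightCriterion.bdd_le
    (f := fun n : ℕ => Real.logb 2 (A n ⌈δ * n⌉₊) / n)
    (Pool.Agent.Results.MP_0430e4_lc.ConstantWeightCriterion.rateA δ)
  have hb2 := Pool.Agent.Results.MP_0430e4_lc.ConstantWeightCriterion.bdd_ge
    (f := fun n : ℕ => Real.logb 2 (A n ⌈δ * n⌉₊) / n)
    (Pool.Agent.Results.MP_0430e4_lc.ConstantWeightCriterion.rateA δ)
  have hH0 : 0 < H δ := by
    have e1 := Pool.Agent.Results.MP_0430e4_lc.ConstantWeightCriterion.H_eq δ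
    have e2 : 0 < Real.binEntropy δ := Real.binEntropy_pos h0 (by linarith)
    have e3 : 0 < Real.log 2 := Real.log_pos (by norm_num)
    by_contra hcon
    push Not at hcon
    have e4 : H δ * Real.log 2 = Real.binEntropy δ := e1
    nlinarith
  have hH1 : H δ ≤ 1 := Pool.Agent.Results.MP_0430e4_lc.ConstantWeightCriterion.H_le_one δ
  -- choosing an erasure channel
  have herase : ∀ ε : ℝ, 0 < ε → ∃ (e : ℝ) (_ : 0 ≤ e) (_ : e ≤ 1), e < H δ ∧ H δ - ε < e := by
    intro ε hε
    refine ⟨max (H δ / 2) (H δ - ε / 2), ?_, ?_, ?_, ?_⟩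
    · exact (by linarith : (0 : ℝ) ≤ H δ / 2).trans (le_max_left _ _)
    · exact (max_le (by linarith) (by linarith) : _ ≤ H δ).trans hH1
    · exact max_lt (by linarith) (by linarith)
    · exact lt_of_lt_of_le (by linarith) (le_max_right _ _)
  constructor
  · tfae_have 1 → 2 := by
      intro hR W hW
      obtain ⟨p, s, hp0, hp, hs, hps⟩ := Pool.Agent.H2x430.choose_p (δ := δ) h0 hW
      have hup := (Pool.Agent.H2x430.upper h0 h1).out 0 1
      obtain ⟨c, hc, hev⟩ := hup.1 hR p hp0 hp
      refine ⟨c / 4, by linarith, ?_⟩
      have hcap : 1 - H p ≤ W.capacity := by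
        have : 1 - H p + 2 * s < W.capacity := hps
        linarith
      filter_upwards [hev, below (δ := δ) W hp0 (hp.trans h1) hcap hc] with n hn1 hn2
      exact hn2 hn1
    tfae_have 2 → 3 := by
      intro h e he0 he1 he
      obtain ⟨c, hc, hev⟩ := h (erasure e he0 he1) (by rw [erasure_capacity]; linarith)
      refine ⟨1 / 2, by norm_num, ?_⟩
      filter_upwards [hev, Pool.Agent.H2x430.small hc] with n hn hs
      exact hmono _ hn hs
    tfae_have 3 → 4 := by
      intro h ε hε
      obtain ⟨e, he0, he1, he2, he3⟩ := herase ε hε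
      obtain ⟨η, hη, hev⟩ := h e he0 he1 he2
      exact ⟨erasure e he0 he1, by rw [erasure_capacity]; linarith, η, hη, hev⟩
    tfae_have 4 → 1 := by
      intro h
      have hge : 1 - H δ ≤ R δ :=
        le_limsup_of_frequently_le (Pool.Agent.H2x430.gv_rate h0 h1).frequently hb1
      by_contra hne
      have hlt : 1 - H δ < R δ := lt_of_le_of_ne hge (Ne.symm hne)
      obtain ⟨W, hW, η, hη, hev⟩ := h (R δ - (1 - H δ)) (by linarith)
      have hW' : W.capacity < R δ := by linarith
      obtain ⟨r, hr1, hr2⟩ := exists_between hW'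
      have h2 : ∃ᶠ n : ℕ in atTop, r < Real.logb 2 (A n ⌈δ * n⌉₊) / n :=
        frequently_lt_of_lt_limsup hb2.isCoboundedUnder_le hr2
      have h3 := above_cap (δ := δ) W hr1 hη
      obtain ⟨n, hn1, hn2, hn3⟩ := (h2.and_eventually (h3.and hev)).exists
      exact hn2 hn1 hn3
    tfae_finish
  · tfae_have 1 → 2 := by
      intro hR W hW
      obtain ⟨p, s, hp0, hp, hs, hps⟩ := Pool.Agent.H2x430.choose_p (δ := δ) h0 hW
      have hup := (Pool.Agent.H2x430.lower h0 h1).out 0 1
      obtain ⟨c, hc, hev⟩ := hup.1 hR p hp0 hp
      refine ⟨c / 4, by linarith, ?_⟩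
      have hcap : 1 - H p ≤ W.capacity := by
        have : 1 - H p + 2 * s < W.capacity := hps
        linarith
      exact (hev.and_eventually (below (δ := δ) W hp0 (hp.trans h1) hcap hc)).mono
        fun n hn => hn.2 hn.1
    tfae_have 2 → 3 := by
      intro h e he0 he1 he
      obtain ⟨c, hc, hev⟩ := h (erasure e he0 he1) (by rw [erasure_capacity]; linarith)
      refine ⟨1 / 2, by norm_num, ?_⟩
      exact (hev.and_eventually (Pool.Agent.H2x430.small hc)).mono fun n hn => hmono _ hn.1 hn.2
    tfae_have 3 → 4 := by
      intro h ε hε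
      obtain ⟨e, he0, he1, he2, he3⟩ := herase ε hε
      obtain ⟨η, hη, hev⟩ := h e he0 he1 he2
      exact ⟨erasure e he0 he1, by rw [erasure_capacity]; linarith, η, hη, hev⟩
    tfae_have 4 → 1 := by
      intro h
      have hge : 1 - H δ ≤ Rlow δ :=
        le_liminf_of_le hb1.isCoboundedUnder_ge (Pool.Agent.H2x430.gv_rate h0 h1)
      by_contra hne
      have hlt : 1 - H δ < Rlow δ := lt_of_le_of_ne hge (Ne.symm hne)
      obtain ⟨W, hW, η, hη, hev⟩ := h (Rlow δ - (1 - H δ)) (by linarith)
      have hW' : W.capacity < Rlow δ := by linarith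
      obtain ⟨r, hr1, hr2⟩ := exists_between hW'
      have h2 : ∀ᶠ n : ℕ in atTop, r < Real.logb 2 (A n ⌈δ * n⌉₊) / n :=
        eventually_lt_of_lt_liminf hr2 hb2
      have h3 := above_cap (δ := δ) W hr1 hη
      obtain ⟨n, hn1, hn2, hn3⟩ := (hev.and_eventually (h3.and h2)).exists
      exact hn2 hn3 hn1
    tfae_finish

end Pool.Agent.Results.MP_0430e4_lc.EveryChannel
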