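import Mathlib
import Pool.Agent.H2xUB.Asym2

/-!
MP_0430e4_lc (helper2).  The complete linear programming hierarchy for binary linear codes
(Coregliano, Jeronimo and Jones): level `ℓ` proves `|C| ^ ℓ ≤ value ℓ n d` for each binary linear
code `C` of length `n` and minimum distance at least `d`.  We show that levels of order `n` are
needed and enough for exponents: for all levels `ℓ ≤ ε n` the bounds stay above the bound of Gilbert
and Varshamov by a factor `2 ^ (c n)`, with `c, ε > 0` depending on the relative distance only, and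
at level `ℓ` the bound is right up to a factor `2 ^ (n ^ 2 / ℓ)`.
-/

set_option autoImplicit false

namespace Pool.Agent.Results.MP_0430e4_lc.LinearLevelsBinary

open Finset Filter

/-- `(-1) ^ z` for `z` in the field with two elements. -/
def sgn (z : ZMod 2) : ℝ := if z = 0 then 1 else -1

/-- `a` is a feasible solution of level `ℓ` of the linear programming hierarchy for binary linear
codes of length `n` and minimum distance at least `d`: a nonnegative function of `ℓ`-tuples of words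
with `a 0 = 1`, which vanishes at each tuple one of whose sums (of some of its words) has weight in
`(0, d)`, and whose Fourier transform on `(GF(2) ^ n) ^ ℓ` is nonnegative. -/
structure IsFeasible (ℓ n d : ℕ) (a : (Fin ℓ → Fin n → ZMod 2) → ℝ) : Prop where
  one : a 0 = 1
  nonneg : ∀ X, 0 ≤ a X
  dist : ∀ X, (∃ I : Finset (Fin ℓ), 0 < hammingNorm (∑ i ∈ I, X i) ∧
    hammingNorm (∑ i ∈ I, X i) < d) → a X = 0
  fourier : ∀ Y : Fin ℓ → Fin n → ZMod 2, 0 ≤ ∑ X, a X * sgn (∑ i, ∑ j, X i j * Y i j)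

/-- The value of level `ℓ`: the largest total mass of a feasible solution. -/
noncomputable def value (ℓ n d : ℕ) : ℝ :=
  sSup {v : ℝ | ∃ a, IsFeasible ℓ n d a ∧ v = ∑ X, a X}

/-- The largest size of a binary linear code of length `n` with minimum distance at least `d`. -/
noncomputable def Alin (n d : ℕ) : ℕ :=
  sSup {m | ∃ C : Submodule (ZMod 2) (Fin n → ZMod 2),
    (∀ x ∈ C, x ≠ 0 → d ≤ hammingNorm x) ∧ Nat.card C = m}

/-- The binary entropy function. -/
noncomputable def H (x : ℝ) : ℝ := -x * Real.logb 2 x - (1 - x) * Real.logb 2 (1 - x)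

/-! ### signs -/

lemma sgn_add (a b : ZMod 2) : sgn (a + b) = sgn a * sgn b := by
  have h : ∀ a b : ZMod 2, (a + b = 0 ↔ (a = 0 ↔ b = 0)) := by decide
  unfold sgn
  by_cases ha : a = 0
  · by_cases hb : b = 0
    · rw [if_pos ha, if_pos hb, if_pos ((h a b).2 ⟨fun _ => hb, fun _ => ha⟩)]
      norm_num
    · rw [if_pos ha, if_neg hb, if_neg fun e => hb (((h a b).1 e).1 ha)]
      norm_num
  · by_cases hb : b = 0
    · rw [if_neg ha, if_pos hb, if_neg fun e => ha (((h a b).1 e).2 hb)]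
      norm_num
    · rw [if_neg ha, if_neg hb, if_pos ((h a b).2 ⟨fun e => absurd e ha, fun e => absurd e hb⟩)]
      norm_num

lemma sgn_zero : sgn 0 = 1 := by
  unfold sgn
  rw [if_pos rfl]

lemma sgn_one : sgn 1 = -1 := by
  unfold sgn
  rw [if_neg one_ne_zero]

lemma sgn_ne {z : ZMod 2} (h : z ≠ 0) : sgn z = -1 := by
  unfold sgn
  rw [if_neg h]

lemma sgn_sum {ι : Type*} (s : Finset ι) (f : ι → ZMod 2) :
    sgn (∑ i ∈ s, f i) = ∏ i ∈ s, sgn (f i) := by
  classical
  induction s using Finset.induction_on with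
  | empty => simp [sgn_zero]
  | insert a s ha ih => rw [Finset.sum_insert ha, Finset.prod_insert ha, sgn_add, ih]

lemma sgn_le (z : ZMod 2) : sgn z ≤ 1 := by
  unfold sgn
  split_ifs <;> norm_num

/-- the sign character, complex valued -/
def ψ : AddChar (ZMod 2) ℂ where
  toFun z := (sgn z : ℂ)
  map_zero_eq_one' := by rw [sgn_zero]; simp
  map_add_eq_mul' a b := by
    rw [sgn_add]
    push_cast
    rfl

/-! ### feasible solutions from the library -/

lemma comb_eq {ℓ n : ℕ} (X : Fin ℓ → Fin n → ZMod 2) (I : Finset (Fin ℓ)) :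
    Matrix.vecMul (fun i => if i ∈ I then 1 else 0) (Matrix.of X) = ∑ i ∈ I, X i := by
  rw [Matrix.vecMul_eq_sum]
  have h : ∀ i, (if i ∈ I then (1 : ZMod 2) else 0) • (Matrix.of X) i = if i ∈ I then X i else 0 := by
    intro i
    split_ifs
    · rw [one_smul]
      rfl
    · rw [zero_smul]
  rw [Finset.sum_congr rfl fun i _ => h i, Finset.sum_ite_mem, Finset.univ_inter]

lemma feasible_of {ℓ n d : ℕ} {a : Matrix (Fin ℓ) (Fin n) (ZMod 2) → ℝ}
    (h : N381.UQ.Fs ℓ n d a) : IsFeasible ℓ n d a := by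
  refine ⟨h.zero, h.nonneg, ?_, ?_⟩
  · rintro X ⟨I, h0, h1⟩
    rw [← comb_eq] at h0 h1
    exact h.dist X _ h0 h1
  · intro Y
    obtain ⟨t, ht⟩ := N381.UQ.exists_shift ψ
    have e : ((∑ X : Fin ℓ → Fin n → ZMod 2, a X * sgn (∑ i, ∑ j, X i j * Y i j) : ℝ) : ℂ) =
        ∑ X : Matrix (Fin ℓ) (Fin n) (ZMod 2), (a X : ℂ) * N381.UQ.ch X (t • Matrix.of Y) := by
      rw [Complex.ofReal_sum]
      refine Finset.sum_congr rfl fun X _ => ?_
      have e1 : N381.UQ.ch (Matrix.of X) (t • Matrix.of Y) =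
          (sgn (∑ i, ∑ j, X i j * Y i j) : ℂ) := by
        unfold N381.UQ.ch
        rw [N381.UQ.pr_smul_right, ← ht]
        rfl
      rw [Complex.ofReal_mul]
      exact congrArg (fun z => (a X : ℂ) * z) e1.symm
    have h1 := h.re (t • Matrix.of Y)
    rw [← e, Complex.ofReal_re] at h1
    exact h1

/-! ### validity -/

lemma sum_code {n : ℕ} (C : Submodule (ZMod 2) (Fin n → ZMod 2)) (y : Fin n → ZMod 2)
    [DecidablePred fun x => x ∈ C] :
    0 ≤ ∑ x : Fin n → ZMod 2, (if x ∈ C then (1 : ℝ) else 0) * sgn (∑ j, x j * y j) := by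
  by_cases h : ∀ x ∈ C, sgn (∑ j, x j * y j) = 1
  · refine Finset.sum_nonneg fun x _ => ?_
    split_ifs with hx
    · rw [h x hx]
      norm_num
    · rw [zero_mul]
  · push Not at h
    obtain ⟨c, hc, hc1⟩ := h
    have hc2 : sgn (∑ j, c j * y j) = -1 := by
      unfold sgn at hc1 ⊢
      split_ifs at hc1 ⊢ with h
      · exact absurd rfl hc1
      · rfl
    have e : ∑ x : Fin n → ZMod 2, (if x ∈ C then (1 : ℝ) else 0) * sgn (∑ j, x j * y j) =
        -∑ x : Fin n → ZMod 2, (if x ∈ C then (1 : ℝ) else 0) * sgn (∑ j, x j * y j) := by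
      conv_lhs => rw [← Equiv.sum_comp (Equiv.addRight c)]
      rw [← Finset.sum_neg_distrib]
      refine Finset.sum_congr rfl fun x _ => ?_
      have h1 : (Equiv.addRight c) x = x + c := rfl
      have h2 : ∑ j, (x + c) j * y j = ∑ j, x j * y j + ∑ j, c j * y j := by
        rw [← Finset.sum_add_distrib]
        refine Finset.sum_congr rfl fun j _ => ?_
        rw [Pi.add_apply, add_mul]
      rw [h1, h2, sgn_add, hc2]
      have h3 : x + c ∈ C ↔ x ∈ C := by
        constructor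
        · intro h
          have := C.sub_mem h hc
          rwa [add_sub_cancel_right] at this
        · intro h
          exact C.add_mem h hc
      by_cases hx : x ∈ C
      · rw [if_pos hx, if_pos (h3.2 hx)]
        ring
      · rw [if_neg hx, if_neg fun h => hx (h3.1 h)]
        ring
    linarith

lemma sum_tuples {ℓ n : ℕ} (g : Fin ℓ → (Fin n → ZMod 2) → ℝ) :
    ∑ X : Fin ℓ → Fin n → ZMod 2, ∏ i, g i (X i) = ∏ i, ∑ x, g i x := by
  have h := Finset.prod_univ_sum (fun _ : Fin ℓ => (univ : Finset (Fin n → ZMod 2))) g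
  rw [Fintype.piFinset_univ] at h
  exact h.symm

lemma code_feasible {ℓ n d : ℕ} (C : Submodule (ZMod 2) (Fin n → ZMod 2))
    (hC : ∀ x ∈ C, x ≠ 0 → d ≤ hammingNorm x) :
    ∃ a, IsFeasible ℓ n d a ∧ ((Nat.card C : ℝ)) ^ ℓ = ∑ X, a X := by
  classical
  refine ⟨fun X => ∏ i, if X i ∈ C then (1 : ℝ) else 0, ⟨?_, ?_, ?_, ?_⟩, ?_⟩
  · refine Finset.prod_eq_one fun i _ => ?_
    rw [if_pos]
    exact C.zero_mem
  · intro X
    refine Finset.prod_nonneg fun i _ => ?_
    split_ifs <;> norm_num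
  · rintro X ⟨I, h0, h1⟩
    by_contra h
    have h2 : ∀ i, X i ∈ C := by
      intro i
      by_contra h3
      exact h (Finset.prod_eq_zero (Finset.mem_univ i) (if_neg h3))
    have h3 : ∑ i ∈ I, X i ∈ C := C.sum_mem fun i _ => h2 i
    have h4 := hC _ h3 (hammingNorm_pos_iff.1 h0)
    omega
  · intro Y
    have e : ∀ X : Fin ℓ → Fin n → ZMod 2, (∏ i, if X i ∈ C then (1 : ℝ) else 0) *
        sgn (∑ i, ∑ j, X i j * Y i j) =
        ∏ i, (fun (x : Fin n → ZMod 2) => (if x ∈ C then (1 : ℝ) else 0) *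
          sgn (∑ j, x j * Y i j)) (X i) := by
      intro X
      rw [sgn_sum, ← Finset.prod_mul_distrib]
    rw [Finset.sum_congr rfl fun X _ => e X,
      sum_tuples fun i x => (if x ∈ C then (1 : ℝ) else 0) * sgn (∑ j, x j * Y i j)]
    exact Finset.prod_nonneg fun i _ => sum_code C (Y i)
  · rw [sum_tuples fun _ x => if x ∈ C then (1 : ℝ) else 0, Finset.prod_const, Finset.card_univ,
      Fintype.card_fin, Finset.sum_boole]
    congr 2
    rw [Nat.card_eq_fintype_card, Fintype.card_subtype]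

lemma Alin_bdd (n d : ℕ) : BddAbove {m | ∃ C : Submodule (ZMod 2) (Fin n → ZMod 2),
    (∀ x ∈ C, x ≠ 0 → d ≤ hammingNorm x) ∧ Nat.card C = m} := by
  refine ⟨Nat.card (Fin n → ZMod 2), ?_⟩
  rintro k ⟨C, -, rfl⟩
  exact Nat.card_le_card_of_injective _ Subtype.val_injective

lemma Alin_mem (n d : ℕ) : ∃ C : Submodule (ZMod 2) (Fin n → ZMod 2),
    (∀ x ∈ C, x ≠ 0 → d ≤ hammingNorm x) ∧ Nat.card C = Alin n d := by
  have : Alin n d ∈ {m | ∃ C : Submodule (ZMod 2) (Fin n → ZMod 2),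
      (∀ x ∈ C, x ≠ 0 → d ≤ hammingNorm x) ∧ Nat.card C = m} :=
    Nat.sSup_mem ⟨_, ⊥, fun x hx h0 => absurd ((Submodule.mem_bot _).1 hx) h0, rfl⟩ (Alin_bdd n d)
  exact this

/-! ### the upper bound -/

lemma orth {ℓ n : ℕ} (X : Fin ℓ → Fin n → ZMod 2) (hX : X ≠ 0) :
    ∑ Y : Fin ℓ → Fin n → ZMod 2, sgn (∑ i, ∑ j, X i j * Y i j) = 0 := by
  obtain ⟨i, j, hij⟩ : ∃ i j, X i j ≠ 0 := by
    by_contra h
    push Not at h
    exact hX (funext fun i => funext fun j => h i j)
  obtain ⟨E, hE⟩ : ∃ E : Fin ℓ → Fin n → ZMod 2, E = Pi.single i (Pi.single j 1) := ⟨_, rfl⟩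
  have h1 : ∑ i', ∑ j', X i' j' * E i' j' = X i j := by
    rw [Finset.sum_eq_single i, Finset.sum_eq_single j]
    · rw [hE, Pi.single_eq_same, Pi.single_eq_same, mul_one]
    · intro j' _ hj'
      rw [hE, Pi.single_eq_same, Pi.single_eq_of_ne hj', mul_zero]
    · intro h
      exact absurd (Finset.mem_univ j) h
    · intro i' _ hi'
      refine Finset.sum_eq_zero fun j' _ => ?_
      rw [hE, Pi.single_eq_of_ne hi', Pi.zero_apply, mul_zero]
    · intro h
      exact absurd (Finset.mem_univ i) h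
  have e : ∑ Y : Fin ℓ → Fin n → ZMod 2, sgn (∑ i, ∑ j, X i j * Y i j) =
      -∑ Y : Fin ℓ → Fin n → ZMod 2, sgn (∑ i, ∑ j, X i j * Y i j) := by
    conv_lhs => rw [← Equiv.sum_comp (Equiv.addRight E)]
    rw [← Finset.sum_neg_distrib]
    refine Finset.sum_congr rfl fun Y _ => ?_
    have h2 : (Equiv.addRight E) Y = Y + E := rfl
    have h3 : ∑ i', ∑ j', X i' j' * (Y + E) i' j' =
        ∑ i', ∑ j', X i' j' * Y i' j' + ∑ i', ∑ j', X i' j' * E i' j' := by
      rw [← Finset.sum_add_distrib]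
      refine Finset.sum_congr rfl fun i' _ => ?_
      rw [← Finset.sum_add_distrib]
      refine Finset.sum_congr rfl fun j' _ => ?_
      rw [Pi.add_apply, Pi.add_apply, mul_add]
    rw [h2, h3, sgn_add, h1, sgn_ne hij]
    ring
  linarith

lemma le_one {ℓ n d : ℕ} {a : (Fin ℓ → Fin n → ZMod 2) → ℝ} (ha : IsFeasible ℓ n d a)
    (Z : Fin ℓ → Fin n → ZMod 2) : a Z ≤ 1 := by
  classical
  obtain ⟨N, hN⟩ : ∃ N : ℝ, N = Fintype.card (Fin ℓ → Fin n → ZMod 2) := ⟨_, rfl⟩
  have hN0 : 0 < N := by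
    rw [hN]
    exact_mod_cast Fintype.card_pos
  have inv : ∀ Z : Fin ℓ → Fin n → ZMod 2, N * a Z = ∑ Y : Fin ℓ → Fin n → ZMod 2,
      (∑ X, a X * sgn (∑ i, ∑ j, X i j * Y i j)) * sgn (∑ i, ∑ j, Z i j * Y i j) := by
    intro Z
    simp_rw [Finset.sum_mul]
    rw [Finset.sum_comm]
    have h1 : ∀ X : Fin ℓ → Fin n → ZMod 2, ∑ Y : Fin ℓ → Fin n → ZMod 2,
        a X * sgn (∑ i, ∑ j, X i j * Y i j) * sgn (∑ i, ∑ j, Z i j * Y i j) =
        if X = Z then N * a X else 0 := by
      intro X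
      have h2 : ∀ Y : Fin ℓ → Fin n → ZMod 2,
          a X * sgn (∑ i, ∑ j, X i j * Y i j) * sgn (∑ i, ∑ j, Z i j * Y i j) =
          a X * sgn (∑ i, ∑ j, (X + Z) i j * Y i j) := by
        intro Y
        have h3 : ∑ i, ∑ j, (X + Z) i j * Y i j =
            ∑ i, ∑ j, X i j * Y i j + ∑ i, ∑ j, Z i j * Y i j := by
          rw [← Finset.sum_add_distrib]
          refine Finset.sum_congr rfl fun i _ => ?_
          rw [← Finset.sum_add_distrib]
          refine Finset.sum_congr rfl fun j _ => ?_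
          rw [Pi.add_apply, Pi.add_apply, add_mul]
        rw [h3, sgn_add, mul_assoc]
      rw [Finset.sum_congr rfl fun Y _ => h2 Y, ← Finset.mul_sum]
      by_cases h : X = Z
      · have h4 : X + Z = 0 := by
          rw [h]
          funext i j
          exact CharTwo.add_self_eq_zero _
        rw [if_pos h, h4]
        simp only [Pi.zero_apply, zero_mul, Finset.sum_const_zero, sgn_zero, Finset.sum_const,
          Finset.card_univ, nsmul_eq_mul, mul_one]
        rw [← hN, mul_comm]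
      · rw [if_neg h, orth (X + Z), mul_zero]
        intro h4
        apply h
        funext i j
        have h5 := congrFun (congrFun h4 i) j
        exact CharTwo.add_eq_zero.1 h5
    rw [Finset.sum_congr rfl fun X _ => h1 X, Finset.sum_ite_eq', if_pos (Finset.mem_univ _)]
  have h1 : N * a Z ≤ N * a 0 := by
    rw [inv Z, inv 0]
    refine Finset.sum_le_sum fun Y _ => ?_
    refine mul_le_mul_of_nonneg_left ?_ (ha.fourier Y)
    have : ∑ i, ∑ j, (0 : Fin ℓ → Fin n → ZMod 2) i j * Y i j = 0 := by simp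
    rw [this, sgn_zero]
    exact sgn_le _
  rw [ha.one] at h1
  exact le_of_mul_le_mul_left h1 hN0

lemma exists_span {n : ℕ} (C : Submodule (ZMod 2) (Fin n → ZMod 2)) :
    ∃ T : Fin n → Fin n → ZMod 2, Submodule.span (ZMod 2) (Set.range T) = C := by
  obtain ⟨p, hp⟩ : ∃ p : (Fin n → ZMod 2) →ₗ[ZMod 2] (Fin n → ZMod 2), LinearMap.range p = C := by
    obtain ⟨f, hf⟩ := C.subtype.exists_leftInverse_of_injective C.ker_subtype
    refine ⟨C.subtype.comp f, ?_⟩
    rw [LinearMap.range_comp, LinearMap.range_eq_top.2 (LinearMap.surjective_of_comp_eq_id _ _ hf),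
      Submodule.map_top, Submodule.range_subtype]
  refine ⟨fun j => p (Pi.single j 1), ?_⟩
  have h1 : (Set.range fun j : Fin n => p (Pi.single j 1)) =
      p '' Set.range fun j : Fin n => (Pi.single j 1 : Fin n → ZMod 2) := by
    rw [← Set.range_comp]
    rfl
  have h2 : Submodule.span (ZMod 2) (Set.range fun j : Fin n =>
      (Pi.single j 1 : Fin n → ZMod 2)) = ⊤ := by
    have := (Pi.basisFun (ZMod 2) (Fin n)).span_eq
    rw [← this]
    congr 1
    congr 1
    funext j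
    rw [Pi.basisFun_apply]
  rw [h1, ← Submodule.map_span, h2, Submodule.map_top, hp]

lemma mass_le {ℓ n d : ℕ} {a : (Fin ℓ → Fin n → ZMod 2) → ℝ} (ha : IsFeasible ℓ n d a) :
    ∑ X, a X ≤ 2 ^ (n ^ 2) * (Alin n d : ℝ) ^ ℓ := by
  classical
  obtain ⟨G, hG⟩ : ∃ G : Finset (Fin ℓ → Fin n → ZMod 2), G = univ.filter fun X =>
      ∀ x ∈ Submodule.span (ZMod 2) (Set.range X), x ≠ 0 → d ≤ hammingNorm x := ⟨_, rfl⟩
  have hzero : ∀ X, X ∉ G → a X = 0 := by
    intro X hX
    rw [hG, Finset.mem_filter] at hX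
    push Not at hX
    obtain ⟨x, hx, hx0, hxd⟩ := hX (Finset.mem_univ X)
    obtain ⟨c, hc⟩ := (Submodule.mem_span_range_iff_exists_fun (ZMod 2)).1 hx
    refine ha.dist X ⟨univ.filter fun i => c i ≠ 0, ?_⟩
    have h1 : ∑ i ∈ univ.filter (fun i => c i ≠ 0), X i = x := by
      rw [← hc, Finset.sum_filter]
      refine Finset.sum_congr rfl fun i _ => ?_
      by_cases h : c i = 0
      · rw [if_neg (not_not.2 h), h, zero_smul]
      · have h2 : ∀ z : ZMod 2, z ≠ 0 → z = 1 := by decide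
        rw [if_pos h, h2 _ h, one_smul]
    rw [h1]
    exact ⟨hammingNorm_pos_iff.2 hx0, by omega⟩
  have h1 : ∑ X, a X ≤ G.card := by
    rw [← Finset.sum_subset (Finset.subset_univ G) fun X _ hX => hzero X hX, ← nsmul_one,
      ← Finset.sum_const]
    exact Finset.sum_le_sum fun X _ => le_one ha X
  have h2 : G ⊆ (univ : Finset (Fin n → Fin n → ZMod 2)).biUnion fun T => univ.filter
      fun X : Fin ℓ → Fin n → ZMod 2 =>
        (∀ x ∈ Submodule.span (ZMod 2) (Set.range T), x ≠ 0 → d ≤ hammingNorm x) ∧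
          ∀ i, X i ∈ Submodule.span (ZMod 2) (Set.range T) := by
    intro X hX
    rw [hG, Finset.mem_filter] at hX
    obtain ⟨T, hT⟩ := exists_span (Submodule.span (ZMod 2) (Set.range X))
    refine Finset.mem_biUnion.2 ⟨T, Finset.mem_univ _, Finset.mem_filter.2
      ⟨Finset.mem_univ _, ?_, ?_⟩⟩
    · rw [hT]
      exact hX.2
    · intro i
      rw [hT]
      exact Submodule.subset_span ⟨i, rfl⟩
  have h3 : ∀ T : Fin n → Fin n → ZMod 2, (univ.filter
      fun X : Fin ℓ → Fin n → ZMod 2 =>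
        (∀ x ∈ Submodule.span (ZMod 2) (Set.range T), x ≠ 0 → d ≤ hammingNorm x) ∧
          ∀ i, X i ∈ Submodule.span (ZMod 2) (Set.range T)).card ≤ Alin n d ^ ℓ := by
    intro T
    by_cases hT : ∀ x ∈ Submodule.span (ZMod 2) (Set.range T), x ≠ 0 → d ≤ hammingNorm x
    · have e1 : Nat.card (Submodule.span (ZMod 2) (Set.range T)) ≤ Alin n d :=
        le_csSup (Alin_bdd n d) ⟨_, hT, rfl⟩
      refine le_trans ?_ (Nat.pow_le_pow_left e1 ℓ)
      have e2 : (univ.filter fun X : Fin ℓ → Fin n → ZMod 2 =>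
          (∀ x ∈ Submodule.span (ZMod 2) (Set.range T), x ≠ 0 → d ≤ hammingNorm x) ∧
            ∀ i, X i ∈ Submodule.span (ZMod 2) (Set.range T)) ⊆
          Fintype.piFinset fun _ : Fin ℓ => univ.filter
            fun x : Fin n → ZMod 2 => x ∈ Submodule.span (ZMod 2) (Set.range T) := by
        intro X hX
        rw [Fintype.mem_piFinset]
        intro i
        exact Finset.mem_filter.2 ⟨Finset.mem_univ _, (Finset.mem_filter.1 hX).2.2 i⟩
      refine (Finset.card_le_card e2).trans (le_of_eq ?_)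
      rw [Fintype.card_piFinset, Finset.prod_const, Finset.card_univ, Fintype.card_fin,
        Nat.card_eq_fintype_card, Fintype.card_subtype]
    · have e2 : (univ.filter fun X : Fin ℓ → Fin n → ZMod 2 =>
          (∀ x ∈ Submodule.span (ZMod 2) (Set.range T), x ≠ 0 → d ≤ hammingNorm x) ∧
            ∀ i, X i ∈ Submodule.span (ZMod 2) (Set.range T)) = ∅ := by
        rw [Finset.filter_eq_empty_iff]
        intro X _ h
        exact hT h.1
      rw [e2, Finset.card_empty]
      exact Nat.zero_le _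
  have h4 : G.card ≤ 2 ^ (n ^ 2) * Alin n d ^ ℓ := by
    refine (Finset.card_le_card h2).trans (Finset.card_biUnion_le.trans ?_)
    refine (Finset.sum_le_sum fun T _ => h3 T).trans (le_of_eq ?_)
    rw [Finset.sum_const, smul_eq_mul, Finset.card_univ, Fintype.card_fun, Fintype.card_fun,
      ZMod.card, Fintype.card_fin, ← pow_mul, sq]
  calc ∑ X, a X ≤ G.card := h1
    _ ≤ ((2 ^ (n ^ 2) * Alin n d ^ ℓ : ℕ) : ℝ) := by exact_mod_cast h4
    _ = _ := by push_cast; rfl

lemma value_bdd (ℓ n d : ℕ) : BddAbove {v : ℝ | ∃ a, IsFeasible ℓ n d a ∧ v = ∑ X, a X} := by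
  refine ⟨2 ^ (n ^ 2) * (Alin n d : ℝ) ^ ℓ, ?_⟩
  rintro v ⟨a, ha, rfl⟩
  exact mass_le ha

/-- **The hierarchy for binary linear codes.**
First part: level `ℓ` bounds `|C| ^ ℓ`, and the `ℓ`-th root of its value is right up to a factor
`2 ^ (n ^ 2 / ℓ)`. Second part: for each `δ ∈ (0, 1/2)` there are `c, ε > 0` such that for each
large `n` and each level `1 ≤ ℓ ≤ ε n` the value of level `ℓ` at length `n` and distance `⌈δ n⌉` is
at least `2 ^ ((1 - H(δ) + c) ℓ n)`. -/
theorem result :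
    (∀ ℓ n d : ℕ, (Alin n d : ℝ) ^ ℓ ≤ value ℓ n d ∧
      value ℓ n d ≤ 2 ^ (n ^ 2) * (Alin n d : ℝ) ^ ℓ) ∧
    ∀ δ : ℝ, 0 < δ → δ < 1 / 2 → ∃ c ε : ℝ, 0 < c ∧ 0 < ε ∧
      ∀ᶠ n : ℕ in atTop, ∀ ℓ : ℕ, 1 ≤ ℓ → (ℓ : ℝ) ≤ ε * n →
        (2 : ℝ) ^ ((1 - H δ + c) * (ℓ * n)) ≤ value ℓ n ⌈δ * n⌉₊ := by
  refine ⟨fun ℓ n d => ⟨?_, ?_⟩, fun δ h0 h1 => ?_⟩
  · obtain ⟨C, hC, hcard⟩ := Alin_mem n d
    obtain ⟨a, ha, hsum⟩ := code_feasible (ℓ := ℓ) C hC
    rw [← hcard, hsum]
    exact le_csSup (value_bdd ℓ n d) ⟨a, ha, rfl⟩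
  · obtain ⟨C, hC, -⟩ := Alin_mem n d
    obtain ⟨a, ha, -⟩ := code_feasible (ℓ := ℓ) C hC
    refine csSup_le ⟨_, a, ha, rfl⟩ ?_
    rintro v ⟨b, hb, rfl⟩
    exact mass_le hb
  · have hcard : Fintype.card (ZMod 2) = 2 := ZMod.card 2
    have hcR : (Fintype.card (ZMod 2) : ℝ) = 2 := by
      rw [hcard]
      norm_num
    obtain ⟨c, ε, hc, hε, hlow⟩ := H2xUB.lower2 (F := ZMod 2) hcard (δ := δ) h0
      (by rw [hcR]; linarith)
    refine ⟨c, ε, hc, hε, ?_⟩
    have hH : Real.qaryEntropy (Fintype.card (ZMod 2)) δ / Real.log (Fintype.card (ZMod 2) : ℝ) =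
        H δ := by
      rw [hcR, hcard]
      unfold Real.qaryEntropy Real.binEntropy H Real.logb
      rw [Real.log_inv, Real.log_inv]
      push_cast
      norm_num
      ring
    filter_upwards [hlow] with n hn ℓ hℓ hle
    obtain ⟨a, ha, hval⟩ := hn ℓ hℓ hle
    rw [hH, hcR] at hval
    exact hval.trans (le_csSup (value_bdd ℓ n _) ⟨a, feasible_of ha, rfl⟩)

end Pool.Agent.Results.MP_0430e4_lc.LinearLevelsBinary
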