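import Pool.Agent.H2xSR.Tight
import Pool.Agent.TH41.BL.DEL

/-!
# MP_0430e4_lc: the number of rounds of conditioning at the Gilbert-Varshamov bound

A pseudo-code of level `(a, b, t)` is a real function `y` on sets of words which behaves like
`y(S) = Prob(S ⊆ C)` for a random code `C` with minimum distance `d`: `y(∅) = 1`, `y(S) = 0` if `S`
has two words at distance less than `d`, and after every conditioning on `D ⊆ C` with `|D| ≤ a` and
`E ∩ C = ∅` with `|E| ≤ b` the pseudo-expectation of the square of every polynomial of degree `t` in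
the indicators `[x ∈ C]` is nonnegative. The bound `SOS a b t n d` is the largest pseudo-expectation
of `|C|`. For `t = 1` and `a, b ≥ s` it is at least as strong as `s` rounds of the hierarchies of
Sherali and Adams and of Lovász and Schrijver, together with semidefinite constraints; for `b = 0` and
`t = 1` it is the hierarchy of the `(a + 2)`-point semidefinite bounds.

We show that the bound is exact if `a + 1 ≥ A(n, d)`, and that it stays exponentially above the
Gilbert-Varshamov bound as long as `a ≤ 2 ^ (κ n)` and `b ≤ 2 ^ (λ n)` for some `κ < 1 - H(δ)` and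
`λ < min (H(δ)) (1 - H(δ))`. So, if the Gilbert-Varshamov bound is tight, the number of rounds needed
for a proof of this is `2 ^ ((1 - H(δ) + o(1)) n)`, the size of the largest code.

Proof of the lower bound. The pseudo-code is `y(S) = α ^ |S| ∏ (1 - b(x + z))`, the product over the
pairs of words in `S`, where `b = 1` on the ball, and outside the ball `b` is minus the projection of
the indicator of the ball to the low and the high frequencies. So `b` is smaller than
`2 ^ (- κ n)` outside the ball, for every `κ < 1 - H(δ)`, and the Fourier coefficients of `b` are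
exponentially smaller than the volume of the ball.
-/

set_option autoImplicit false

open Filter

namespace Pool.Agent.Results.MP_0430e4_lc.SharpRounds

/-- `A(n,d)`: the largest size of a binary code of length `n` with minimum distance at least `d`. -/
noncomputable def A (n d : ℕ) : ℕ :=
  sSup {m | ∃ C : Finset (Fin n → Bool),
    (∀ x ∈ C, ∀ y ∈ C, x ≠ y → d ≤ hammingDist x y) ∧ C.card = m}

/-- The asymptotic rate `R(δ) = limsup (1/n) log₂ A(n, ⌈δ n⌉)`. -/
noncomputable def R (δ : ℝ) : ℝ :=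
  limsup (fun n : ℕ => Real.logb 2 (A n ⌈δ * n⌉₊) / n) atTop

/-- The binary entropy function. -/
noncomputable def H (x : ℝ) : ℝ := -x * Real.logb 2 x - (1 - x) * Real.logb 2 (1 - x)

/-- The pseudo-probability of `D ∪ S ⊆ C, E ∩ C = ∅`:
`∑_{F ⊆ E} (-1)^|F| y(D ∪ F ∪ S)`. -/
def pseudoProb {n : ℕ} (y : Finset (Fin n → Bool) → ℝ) (D E S : Finset (Fin n → Bool)) : ℝ :=
  ∑ F ∈ E.powerset, (-1) ^ F.card * y (D ∪ F ∪ S)

/-- Pseudo-codes of level `(a, b, t)`, length `n` and minimum distance `d`: the matrices with entries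
`pseudoProb y D E (S ∪ T)`, with `S` and `T` of size at most `t`, are positive semidefinite for all
`D` and `E` with `|D| ≤ a` and `|E| ≤ b`. -/
structure IsPseudoCode (a b t n d : ℕ) (y : Finset (Fin n → Bool) → ℝ) : Prop where
  one : y ∅ = 1
  dist : ∀ S : Finset (Fin n → Bool), ∀ u ∈ S, ∀ v ∈ S, u ≠ v → hammingDist u v < d → y S = 0
  psd : ∀ D E : Finset (Fin n → Bool), D.card ≤ a → E.card ≤ b →
    ∀ f : Finset (Fin n → Bool) → ℝ, (∀ S, t < S.card → f S = 0) →
      0 ≤ ∑ S, ∑ T, f S * f T * pseudoProb y D E (S ∪ T)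

/-- The sum-of-squares bound of level `(a, b, t)`: the largest value of `∑_x y({x})`. -/
noncomputable def SOS (a b t n d : ℕ) : ℝ :=
  sSup {v : ℝ | ∃ y, IsPseudoCode a b t n d y ∧ v = ∑ x, y {x}}

open Pool.Agent.H2xSR

lemma pc_iff (a b t n d : ℕ) (y : Finset (Fin n → Bool) → ℝ) :
    IsPseudoCode a b t n d y ↔ PC3 a b t n d y :=
  ⟨fun h => ⟨h.one, h.dist, h.psd⟩, fun h => ⟨h.one, h.dist, h.psd⟩⟩

lemma SOS_eq (a b t n d : ℕ) : SOS a b t n d = SO3 a b t n d := by
  unfold SOS SO3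
  simp only [pc_iff]

lemma H_eq (x : ℝ) : H x = Real.binEntropy x / Real.log 2 := by
  unfold H Real.binEntropy Real.logb
  rw [Real.log_inv, Real.log_inv]
  ring

lemma A_bdd (n d : ℕ) : BddAbove {m | ∃ C : Finset (Fin n → Bool),
    (∀ x ∈ C, ∀ y ∈ C, x ≠ y → d ≤ hammingDist x y) ∧ C.card = m} := by
  refine ⟨Fintype.card (Fin n → Bool), ?_⟩
  rintro k ⟨C, -, rfl⟩
  exact Finset.card_le_univ C

lemma A_mem (n d : ℕ) : ∃ C : Finset (Fin n → Bool),
    (∀ x ∈ C, ∀ y ∈ C, x ≠ y → d ≤ hammingDist x y) ∧ C.card = A n d := by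
  have : A n d ∈ {k | ∃ C : Finset (Fin n → Bool),
      (∀ x ∈ C, ∀ y ∈ C, x ≠ y → d ≤ hammingDist x y) ∧ C.card = k} :=
    Nat.sSup_mem ⟨0, ∅, by simp, by simp⟩ (A_bdd n d)
  exact this

/-- **The number of rounds of conditioning at the Gilbert-Varshamov bound.**
(1) The bounds are valid. (2) They are exact if `a + 1 ≥ A(n, d)`. (3) For every `0 < δ < 1/2`,
every `κ < 1 - H δ` and every `lam < min (H δ) (1 - H δ)` there are `γ, c > 0` such that for all large
`n`, all `a ≤ 2^(κ n)`, `b ≤ 2^(lam n)` and `1 ≤ t ≤ c n / log n` the bound of level `(a, b, t)` for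
the minimum distance `⌈δ n⌉` is at least `2^((1 - H(δ) + γ / t) n)`. (4) The Gilbert-Varshamov bound
is tight at `δ` if and only if for every `ε > 0` and all large `n` the bound of level
`(⌈2^((1 - H(δ) + ε) n)⌉, 0, 1)` is at most `2^((1 - H(δ) + ε) n)`. -/
theorem result :
    (∀ a b t n d : ℕ, 1 ≤ t → (A n d : ℝ) ≤ SOS a b t n d) ∧
    (∀ a b t n d : ℕ, 1 ≤ t → A n d ≤ a + 1 → SOS a b t n d = A n d) ∧
    (∀ δ : ℝ, 0 < δ → δ < 1 / 2 → ∀ κ < 1 - H δ, ∀ lam < min (H δ) (1 - H δ),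
      ∃ γ : ℝ, 0 < γ ∧ ∃ c : ℝ, 0 < c ∧ ∃ n₀ : ℕ, ∀ n ≥ n₀, ∀ a b t : ℕ, 1 ≤ t →
        (a : ℝ) ≤ 2 ^ (κ * n) → (b : ℝ) ≤ 2 ^ (lam * n) → (t : ℝ) ≤ c * n / Real.log n →
          (2 : ℝ) ^ ((1 - H δ + γ / t) * n) ≤ SOS a b t n ⌈δ * n⌉₊) ∧
    (∀ δ : ℝ, 0 < δ → δ < 1 / 2 → (R δ = 1 - H δ ↔ ∀ ε : ℝ, 0 < ε → ∀ᶠ n : ℕ in atTop,
      SOS ⌈(2 : ℝ) ^ ((1 - H δ + ε) * n)⌉₊ 0 1 n ⌈δ * n⌉₊ ≤ (2 : ℝ) ^ ((1 - H δ + ε) * n))) := by
  simp_rw [SOS_eq]
  refine ⟨fun a b t n d ht => ?_, fun a b t n d ht ha => ?_, fun δ h0 h1 κ hκ lam hlam => ?_,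
    fun δ h0 h1 => tight h0 h1⟩
  · obtain ⟨C, hC, hcard⟩ := A_mem n d
    rw [← hcard]
    exact code_le3 ht C hC
  · refine le_antisymm (SO3_le ht ha fun C hC => le_csSup (A_bdd n d) ⟨C, hC, rfl⟩) ?_
    obtain ⟨C, hC, hcard⟩ := A_mem n d
    rw [← hcard]
    exact code_le3 ht C hC
  · rw [H_eq] at hκ hlam
    obtain ⟨γ, hγ, c, hc, n₀, h⟩ := SO3_lower Pool.Agent.TH41.BL.k7_chr h0 h1 hκ
      (hlam.trans_le (min_le_right _ _)) (hlam.trans_le (min_le_left _ _))
    refine ⟨γ, hγ, c, hc, n₀, fun n hn a b t ht ha hb htc => ?_⟩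
    rw [H_eq]
    exact h n hn a b t ht ha hb htc

end Pool.Agent.Results.MP_0430e4_lc.SharpRounds
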