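import Pool.Agent.H2xSE.Fin5
import Pool.Agent.H2xSE.Low3
import Pool.Agent.Y570.KP.Main
import Pool.Agent.Y570.LS.Fin
import Pool.Agent.TH41.BL.ASMH
import Pool.Agent.TH41.BL.DEL

/-!
# MP_0430e4_lc: subexponentially many rounds of conditioning do not improve Delsarte's exponent

A pseudo-code of level `(a, b, t)` is a real function `y` on sets of words which behaves like
`y(S) = Prob(S ⊆ C)` for a random code `C` with minimum distance `d`: `y(∅) = 1`, `y(S) = 0` if `S`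
has two words at distance less than `d`, and after every conditioning on `D ⊆ C` with `|D| ≤ a` and
`E ∩ C = ∅` with `|E| ≤ b` the pseudo-expectation of the square of every polynomial of degree `t` in
the indicators `[x ∈ C]` is nonnegative. The bound `SOS a b t n d` is the largest pseudo-expectation
of `|C|`. For `t = 1` and `a, b ≥ s` it is at least as strong as `s` rounds of the hierarchies of
Sherali and Adams and of Lovász and Schrijver, together with semidefinite constraints; for `t = 1` it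
is at least as strong as the `(a + 2)`-point semidefinite bounds.

Let `θ` be the exponent of Delsarte's linear programming bound for the relative distance `δ` (it is
given by an explicit curve). We show that for every `ε > 0` there is `c > 0` such that even for
`a, b ≤ 2 ^ (c n)` the bound of level `(a, b, 1)` is at least `2 ^ ((θ - ε) n)`. So with `2 ^ (o(n))`
rounds these bounds have exactly the exponent of Delsarte's linear program; no such bound improves the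
second bound of McEliece, Rodemich, Rumsey and Welch by more than Delsarte's linear program does. This
remains true for all weights, so also for the bounds for constant weight codes combined with the
inequality of Elias and Bassalygo.

Proof. The pseudo-code is `y(S) = ρ ^ |S| ∏ G(x, z)`, the product over the pairs of words in `S`, for
a kernel `G` with values in `[0, 1 + 2 ^ (- κ n)]` which vanishes for the distances smaller than `d`,
and for which `G - 1` has spectral norm at most `2 ^ ((1 - θ + ε) n)`. It is obtained by duality from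
test functions `v` (the mollified functions of the proof that the exponent is `θ`); the new point is
that `v` stays between `- 2 ^ (- κ n)` and `1 + 2 ^ (- κ n)` for a suitable choice of the signs at the
distances close to `n`.
-/

set_option autoImplicit false

open Filter Topology

namespace Pool.Agent.Results.MP_0430e4_lc.SubexponentialRounds

/-- `A(n,d)`: the largest size of a binary code of length `n` with minimum distance at least `d`. -/
noncomputable def A (n d : ℕ) : ℕ :=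
  sSup {m | ∃ C : Finset (Fin n → Bool),
    (∀ x ∈ C, ∀ y ∈ C, x ≠ y → d ≤ hammingDist x y) ∧ C.card = m}

/-- The pseudo-probability of `D ∪ S ⊆ C, E ∩ C = ∅`:
`∑_{F ⊆ E} (-1)^|F| y(D ∪ F ∪ S)`. -/
def pseudoProb {n : ℕ} (y : Finset (Fin n → Bool) → ℝ) (D E S : Finset (Fin n → Bool)) : ℝ :=
  ∑ F ∈ E.powerset, (-1) ^ F.card * y (D ∪ F ∪ S)

/-- Pseudo-codes of level `(a, b, t)`, length `n` and minimum distance `d`: the matrices with entries
`pseudoProb y D E (S ∪ T)`, with `S` and `T` of size at most `t`, are positive semidefinite for all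
`D` and `E` with `|D| ≤ a` and `|E| ≤ b`. -/
structure IsPseudoCode (a b t n d : ℕ) (y : Finset (Fin n → Bool) → ℝ) : Prop where
  one : y ∅ = 1
  dist : ∀ S : Finset (Fin n → Bool), ∀ u ∈ S, ∀ v ∈ S, u ≠ v → hammingDist u v < d → y S = 0
  psd : ∀ D E : Finset (Fin n → Bool), D.card ≤ a → E.card ≤ b →
    ∀ f : Finset (Fin n → Bool) → ℝ, (∀ S, t < S.card → f S = 0) →
      0 ≤ ∑ S, ∑ T, f S * f T * pseudoProb y D E (S ∪ T)

/-- The sum-of-squares bound of level `(a, b, t)`: the largest value of `∑_x y({x})`. -/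
noncomputable def SOS (a b t n d : ℕ) : ℝ :=
  sSup {v : ℝ | ∃ y, IsPseudoCode a b t n d y ∧ v = ∑ x, y {x}}

/-- The weighted bound: the largest value of `∑_x w(x) y({x})`. If `w` is the indicator function of a
set of words (for instance the words of one weight), it bounds the size of the codes in this set. -/
noncomputable def weightedSOS (a b t n d : ℕ) (w : (Fin n → Bool) → ℝ) : ℝ :=
  sSup {v : ℝ | ∃ y, IsPseudoCode a b t n d y ∧ v = ∑ x, w x * y {x}}

/-- The binary Krawtchouk polynomial `K_j` of length `n` at `w`,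
`∑_i (-1)^i (w choose i) (n - w choose j - i)`. -/
def krawtchouk (n j w : ℕ) : ℤ :=
  ∑ i ∈ Finset.range (j + 1), (-1) ^ i * (w.choose i : ℤ) * ((n - w).choose (j - i) : ℤ)

/-- `f(w) = ∑_{j ≤ n} l_j K_j(w)`. -/
noncomputable def combination (n : ℕ) (l : ℕ → ℝ) (w : ℕ) : ℝ :=
  ∑ j ∈ Finset.range (n + 1), l j * (krawtchouk n j w : ℝ)

/-- The feasible solutions of Delsarte's linear program for binary codes of length `n` and minimum
distance `d`. Each of them gives the bound `A(n, d) ≤ f(0) / l_0`. -/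
structure IsFeasible (n d : ℕ) (l : ℕ → ℝ) : Prop where
  nonneg : ∀ j, 0 ≤ l j
  pos : 0 < l 0
  nonpos : ∀ w : ℕ, d ≤ w → w ≤ n → combination n l w ≤ 0

/-- The value of Delsarte's linear program: the infimum of the bounds `f(0) / l_0`. -/
noncomputable def LP (n d : ℕ) : ℝ :=
  sInf {v : ℝ | ∃ l : ℕ → ℝ, IsFeasible n d l ∧ v = combination n l 0 / l 0}

/-- `η(x) = -x log₂ x`, with `η(0) = 0`. -/
noncomputable def η (x : ℝ) : ℝ := -x * Real.logb 2 x

/-- The binary entropy function. -/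
noncomputable def H (x : ℝ) : ℝ := η x + η (1 - x)

/-- `h(x) = H(1/2 - 1/2 √(1 - x))`. -/
noncomputable def h (x : ℝ) : ℝ := H (1 / 2 - 1 / 2 * √(1 - x))

/-- `α_k(e) = ∑_j sech²((2 j + k) e) / ∑_j sech((2 j + k) e)`, sums over all integers `j`. -/
noncomputable def α (k : ℤ) (e : ℝ) : ℝ :=
  (∑' j : ℤ, 1 / Real.cosh ((2 * j + k) * e) ^ 2) / ∑' j : ℤ, 1 / Real.cosh ((2 * j + k) * e)

/-- `S(e) = h(sech² e) - h(sech² 2e) + h(sech² 3e) - …`. -/
noncomputable def S (e : ℝ) : ℝ := ∑' n : ℕ, (-1) ^ n * h (1 / Real.cosh ((n + 1) * e) ^ 2)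

/-- The curve of the points `(δ, θ)`, `θ` the exponent of Delsarte's linear program for `δ`. -/
def Curve : Set (ℝ × ℝ) :=
  {p | (∃ e : ℝ, 0 < e ∧ p = ((1 - α 1 e) / 2, S e)) ∨
    (∃ e : ℝ, 0 < e ∧ p = ((1 - α 0 e) / 2, 1 - S e)) ∨ p = (1 / 2 - 1 / Real.pi, 1 / 2)}

/-- Half of the difference between the exponents `H(1/2 - √(δ (1 - δ)))` of McEliece, Rodemich,
Rumsey and Welch (first bound) and `1 - H(δ)` of Gilbert and Varshamov. -/
noncomputable def gain (δ : ℝ) : ℝ := (H (1 / 2 - √(δ * (1 - δ))) - (1 - H δ)) / 2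

open Pool.Agent.TH41.BL Pool.Agent.Y570 Pool.Agent.H2xSR Pool.Agent.H2xSE

lemma α_zero (e : ℝ) : α 0 e = A2s e / As e := by
  unfold α A2s As
  simp

lemma α_one (e : ℝ) : α 1 e = B2s e / Bs e := by
  unfold α B2s Bs
  simp

lemma S_eq (e : ℝ) : S e = Ss e := rfl

lemma feas_iff (n d : ℕ) (l : ℕ → ℝ) : IsFeasible n d l ↔ Feas n d l :=
  ⟨fun h => ⟨h.nonneg, h.pos, h.nonpos⟩, fun h => ⟨h.1, h.2.1, h.2.2⟩⟩

lemma comb_zero (n : ℕ) (l : ℕ → ℝ) : combination n l 0 = Vl n l := (FINf.Vl_eq n l).symm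

lemma LP_eq (n d : ℕ) : LP n d = FINf.LPv n d := by
  unfold LP FINf.LPv
  congr 1
  ext v
  simp only [Set.mem_ofPred_eq, feas_iff, comb_zero]

lemma pc_iff (a b t n d : ℕ) (y : Finset (Fin n → Bool) → ℝ) :
    IsPseudoCode a b t n d y ↔ PC3 a b t n d y :=
  ⟨fun h => ⟨h.one, h.dist, h.psd⟩, fun h => ⟨h.one, h.dist, h.psd⟩⟩

lemma SOS_eq (a b t n d : ℕ) : SOS a b t n d = SO3 a b t n d := by
  unfold SOS SO3
  simp only [pc_iff]

lemma SOSW_eq (a b t n d : ℕ) (w : (Fin n → Bool) → ℝ) :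
    weightedSOS a b t n d w = SW3 a b t n d w := by
  unfold weightedSOS SW3
  simp only [pc_iff]

lemma A_bdd (n d : ℕ) : BddAbove {m | ∃ C : Finset (Fin n → Bool),
    (∀ x ∈ C, ∀ y ∈ C, x ≠ y → d ≤ hammingDist x y) ∧ C.card = m} := by
  refine ⟨Fintype.card (Fin n → Bool), ?_⟩
  rintro k ⟨C, -, rfl⟩
  exact Finset.card_le_univ C

lemma A_mem (n d : ℕ) : ∃ C : Finset (Fin n → Bool),
    (∀ x ∈ C, ∀ y ∈ C, x ≠ y → d ≤ hammingDist x y) ∧ C.card = A n d := by
  have : A n d ∈ {k | ∃ C : Finset (Fin n → Bool),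
      (∀ x ∈ C, ∀ y ∈ C, x ≠ y → d ≤ hammingDist x y) ∧ C.card = k} :=
    Nat.sSup_mem ⟨0, ∅, by simp, by simp⟩ (A_bdd n d)
  exact this

lemma A_le (a b t n d : ℕ) (ht : 1 ≤ t) : (A n d : ℝ) ≤ SOS a b t n d := by
  obtain ⟨C, hC, hcard⟩ := A_mem n d
  rw [SOS_eq, ← hcard]
  exact code_le3 ht C hC

lemma SOS_pos (a b t n d : ℕ) (ht : 1 ≤ t) : (1 : ℝ) ≤ SOS a b t n d := by
  refine le_trans ?_ (A_le a b t n d ht)
  have h1 : 1 ≤ A n d := by
    refine le_csSup (A_bdd n d) ⟨{fun _ => true}, ?_, by simp⟩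
    intro x hx y hy hxy
    rw [Finset.mem_singleton] at hx hy
    exact absurd (hx.trans hy.symm) hxy
  exact_mod_cast h1

lemma S3low : S3_low := low3 k3_pb

/-- the two bounds for the points of the curve -/
lemma point {δ θ : ℝ} (hp : (δ, θ) ∈ Curve) :
    0 < δ ∧ Ke5 δ (θ * Real.log 2) ∧ LIMf.Be δ (θ * Real.log 2) ∧ UB δ θ := by
  have hpi := Real.pi_pos
  obtain ⟨c1, c2, c3⟩ := k7_cv
  rcases hp with ⟨e, he, hp⟩ | ⟨e, he, hp⟩ | hp
  · obtain ⟨h2, h3⟩ := Prod.mk.inj hp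
    subst h2 h3
    have h4 := CV7f.al_lt_one he (k := 1) (by norm_num)
    rw [CV7f.al_one] at h4
    rw [α_one, S_eq]
    have h5 : 0 < (1 - B2s e / Bs e) / 2 := by linarith
    exact ⟨h5, ke_two5 k7_chr he h5.le, be_two he, c2 e he⟩
  · obtain ⟨h2, h3⟩ := Prod.mk.inj hp
    subst h2 h3
    have h4 := CV7f.al_lt_one he (k := 0) le_rfl
    rw [CV7f.al_zero] at h4
    rw [α_zero, S_eq]
    exact ⟨by linarith, ke_one5 k7_chr S3low he, be_one he, c1 e he⟩
  · obtain ⟨h2, h3⟩ := Prod.mk.inj hp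
    subst h2 h3
    refine ⟨?_, ke_mid5 k7_chr, be_mid, c3⟩
    have : 1 / Real.pi < 1 / 2 :=
      one_div_lt_one_div_of_lt (by norm_num) (by linarith [Real.pi_gt_three])
    linarith

lemma LP_limit {δ θ : ℝ} (hp : (δ, θ) ∈ Curve) :
    Tendsto (fun n : ℕ => Real.logb 2 (LP n ⌈δ * n⌉₊) / n) atTop (𝓝 θ) := by
  obtain ⟨h0, -, h1, h2⟩ := point hp
  simp_rw [LP_eq]
  exact FINf.limit h0 h1 h2

lemma on_curve (δ : ℝ) (h0 : 0 < δ) (h1 : δ < 1 / 2) : ∃ θ, (δ, θ) ∈ Curve := by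
  have hpi := Real.pi_pos
  rcases lt_trichotomy δ (1 / 2 - 1 / Real.pi) with h | h | h
  · obtain ⟨e, he, hv⟩ := Pool.Agent.TH753.FF.exists_zero (y := 1 - 2 * δ)
      (by rw [show 2 / Real.pi = 2 * (1 / Real.pi) by ring]; linarith) (by linarith)
    refine ⟨1 - S e, Or.inr (Or.inl ⟨e, he, ?_⟩)⟩
    rw [α_zero, ← CV7f.al_zero, hv]
    congr 1
    ring
  · exact ⟨1 / 2, Or.inr (Or.inr (by rw [h]))⟩
  · obtain ⟨e, he, hv⟩ := Pool.Agent.TH753.FF.exists_one (y := 1 - 2 * δ) (by linarith)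
      (by rw [show 2 / Real.pi = 2 * (1 / Real.pi) by ring]; linarith)
    refine ⟨S e, Or.inl ⟨e, he, ?_⟩⟩
    rw [α_one, ← CV7f.al_one, hv]
    congr 1
    ring

lemma H_eq (x : ℝ) : H x = Real.binEntropy x / Real.log 2 := by
  unfold H η Real.binEntropy Real.logb
  rw [Real.log_inv, Real.log_inv]
  ring

lemma lt_half {δ θ : ℝ} (hp : (δ, θ) ∈ Curve) : δ < 1 / 2 := by
  have hpi := Real.pi_pos
  rcases hp with ⟨e, he, hp⟩ | ⟨e, he, hp⟩ | hp
  · obtain ⟨h2, h3⟩ := Prod.mk.inj hp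
    subst h2 h3
    have h4 := CV7f.al_pos he 1
    rw [CV7f.al_one] at h4
    rw [α_one]
    linarith
  · obtain ⟨h2, h3⟩ := Prod.mk.inj hp
    subst h2 h3
    have h4 := CV7f.al_pos he 0
    rw [CV7f.al_zero] at h4
    rw [α_zero]
    linarith
  · obtain ⟨h2, h3⟩ := Prod.mk.inj hp
    subst h2 h3
    have : 0 < 1 / Real.pi := by positivity
    linarith

lemma gain_eq (δ : ℝ) : gain δ = (Real.binEntropy (1 / 2 - √(δ * (1 - δ))) +
    Real.binEntropy δ - Real.log 2) / 2 / Real.log 2 := by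
  have hl2 : 0 < Real.log 2 := Real.log_pos (by norm_num)
  unfold gain
  rw [H_eq, H_eq]
  field_simp
  ring

lemma gain_pos {δ : ℝ} (h0 : 0 < δ) (h1 : δ < 1 / 2) : 0 < gain δ := by
  rw [gain_eq]
  have := LS.gain_pos h0 h1
  exact div_pos (by linarith) (Real.log_pos (by norm_num))

/-- polynomials of larger degree -/
lemma high {δ : ℝ} (h0 : 0 < δ) (h1 : δ < 1 / 2) (γ : ℝ) (hγ : γ < gain δ) :
    ∃ c : ℝ, 0 < c ∧ ∀ᶠ n : ℕ in atTop, ∀ a b t : ℕ, 1 ≤ t → (a : ℝ) ≤ 2 ^ (c * n) →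
      (b : ℝ) ≤ 2 ^ (c * n) → (t : ℝ) ≤ c * n / Real.log n →
        (2 : ℝ) ^ ((1 - H δ + γ / t) * n) ≤ SOS a b t n ⌈δ * n⌉₊ := by
  have hl2 : 0 < Real.log 2 := Real.log_pos (by norm_num)
  obtain ⟨c, hc, n₀, hn₀⟩ := H2xSX.SO_lower2 k7_chr h0 h1 (γ := γ) (by
    rw [gain_eq, lt_div_iff₀ hl2] at hγ
    exact hγ)
  obtain ⟨n₁, hn₁⟩ := exists_nat_ge (2 / c)
  refine ⟨c / 2, by linarith, ?_⟩
  filter_upwards [eventually_ge_atTop (max n₀ (max n₁ 2))] with n hn a b t ht ha hb htc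
  have hn0 : n₀ ≤ n := le_trans (le_max_left _ _) hn
  have hn1 : n₁ ≤ n := le_trans (le_trans (le_max_left _ _) (le_max_right _ _)) hn
  have hn2 : 2 ≤ n := le_trans (le_trans (le_max_right _ _) (le_max_right _ _)) hn
  have hnR : (0 : ℝ) < n := by exact_mod_cast (by omega : 0 < n)
  have hcn : 2 ≤ c * n := by
    have e1 : 2 / c ≤ (n : ℝ) := hn₁.trans (by exact_mod_cast hn1)
    rwa [div_le_iff₀' hc] at e1
  rw [SOS_eq, H_eq]
  refine le_trans (hn₀ n hn0 (a + b) t ht ?_ ?_) (SO_le_SO3 ht)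
  · have e1 : (2 : ℝ) * 2 ^ (c / 2 * n) ≤ 2 ^ (c * n) := by
      have e2 : (2 : ℝ) * 2 ^ (c / 2 * n) = 2 ^ (1 + c / 2 * n) := by
        rw [Real.rpow_add two_pos, Real.rpow_one]
      rw [e2]
      refine Real.rpow_le_rpow_of_exponent_le (by norm_num) ?_
      linarith
    push_cast
    linarith
  · refine htc.trans ?_
    have hlogn : 0 ≤ Real.log n := Real.log_nonneg (by exact_mod_cast (by omega : 1 ≤ n))
    refine div_le_div_of_nonneg_right ?_ hlogn
    refine mul_le_mul_of_nonneg_right (by linarith) hnR.le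

lemma SOS_limit {δ θ : ℝ} (hp : (δ, θ) ∈ Curve) (ε : ℝ) (hε : 0 < ε) :
    ∃ c : ℝ, 0 < c ∧ ∀ᶠ n : ℕ in atTop, ∀ a b : ℕ, 1 ≤ a → (a : ℝ) ≤ 2 ^ (c * n) →
      (b : ℝ) ≤ 2 ^ (c * n) → (2 : ℝ) ^ ((θ - ε) * n) ≤ SOS a b 1 n ⌈δ * n⌉₊ ∧
        SOS a b 1 n ⌈δ * n⌉₊ ≤ 2 ^ ((θ + ε) * n) := by
  obtain ⟨h0, h1, -, -⟩ := point hp
  obtain ⟨c, hc, n₀, hn₀⟩ := SO3_lower5 h0 h1 ε hε
  refine ⟨c, hc, ?_⟩
  have h2 := (tendsto_order.1 (LP_limit hp)).2 (θ + ε) (by linarith)
  filter_upwards [h2, eventually_ge_atTop (max n₀ 1)] with n hn hn1 a b ha1 ha hb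
  have hn0 : n₀ ≤ n := le_trans (le_max_left _ _) hn1
  have hn1' : 1 ≤ n := le_trans (le_max_right _ _) hn1
  have hnR : (0 : ℝ) < n := by exact_mod_cast hn1'
  have hd1 : 1 ≤ ⌈δ * n⌉₊ := Nat.one_le_iff_ne_zero.2 (Nat.ceil_pos.2 (by positivity)).ne'
  have h3 : SOS a b 1 n ⌈δ * n⌉₊ ≤ LP n ⌈δ * n⌉₊ := by
    rw [SOS_eq, LP_eq]
    exact SO3_le_lp k7_chr ha1 le_rfl hd1
  refine ⟨?_, h3.trans ?_⟩
  · rw [SOS_eq]
    exact hn₀ n hn0 a b ha hb
  · have hpos : (0 : ℝ) < LP n ⌈δ * n⌉₊ :=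
      lt_of_lt_of_le one_pos ((SOS_pos a b 1 n _ le_rfl).trans h3)
    rw [div_lt_iff₀ hnR, Real.logb_lt_iff_lt_rpow (by norm_num) hpos] at hn
    exact hn.le

/-- the exponent is larger than the one of Gilbert and Varshamov -/
lemma gv {δ θ : ℝ} (hp : (δ, θ) ∈ Curve) : 1 - H δ + gain δ ≤ θ := by
  obtain ⟨h0, -, -, -⟩ := point hp
  have h1 := lt_half hp
  refine le_of_forall_pos_le_add fun ε hε => ?_
  obtain ⟨c, hc, hn⟩ := high h0 h1 (gain δ - ε) (by linarith)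
  have hev : ∀ᶠ n : ℕ in atTop, 2 ≤ c * √(n : ℝ) := by
    filter_upwards [eventually_ge_atTop ⌈(2 / c) ^ 2⌉₊] with n hn
    have e1 : (2 / c) ^ 2 ≤ (n : ℝ) := (Nat.le_ceil _).trans (by exact_mod_cast hn)
    have e2 : 2 / c ≤ √(n : ℝ) := Real.le_sqrt_of_sq_le e1
    rwa [div_le_iff₀' hc] at e2
  have hge : 1 - H δ + gain δ - ε ≤ θ := by
    refine ge_of_tendsto (LP_limit hp) ?_
    filter_upwards [hn, hev, eventually_ge_atTop 2] with n hn hcn hn2
    have hnR : (0 : ℝ) < n := by exact_mod_cast (by omega : 0 < n)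
    have hn1 : (1 : ℝ) ≤ n := by exact_mod_cast (by omega : 1 ≤ n)
    have hlogn : 0 < Real.log n := Real.log_pos (by exact_mod_cast (by omega : 1 < n))
    have hs0 : 0 < √(n : ℝ) := Real.sqrt_pos.2 hnR
    have hss : √(n : ℝ) * √(n : ℝ) = n := Real.mul_self_sqrt hnR.le
    have hlog : Real.log n ≤ 2 * √(n : ℝ) := by
      have e1 : Real.log n = 2 * Real.log (√(n : ℝ)) := by
        rw [Real.log_sqrt hnR.le]
        ring
      have e2 := Real.log_le_sub_one_of_pos hs0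
      rw [e1]
      linarith
    have h2 := hn 1 0 1 le_rfl (by
      push_cast
      exact Real.one_le_rpow (by norm_num) (by positivity)) (by
      push_cast
      positivity) (by
      push_cast
      rw [le_div_iff₀ hlogn, one_mul]
      calc Real.log n ≤ 2 * √(n : ℝ) := hlog
        _ ≤ c * √(n : ℝ) * √(n : ℝ) := mul_le_mul_of_nonneg_right hcn hs0.le
        _ = c * n := by rw [mul_assoc, hss])
    have hd1 : 1 ≤ ⌈δ * n⌉₊ := Nat.one_le_iff_ne_zero.2 (Nat.ceil_pos.2 (by positivity)).ne'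
    have h3 : SOS 1 0 1 n ⌈δ * n⌉₊ ≤ LP n ⌈δ * n⌉₊ := by
      rw [SOS_eq, LP_eq]
      exact SO3_le_lp k7_chr le_rfl le_rfl hd1
    have h4 := h2.trans h3
    have hpos : (0 : ℝ) < LP n ⌈δ * n⌉₊ := lt_of_lt_of_le (by positivity) h4
    rw [le_div_iff₀ hnR, Real.le_logb_iff_rpow_le (by norm_num) hpos]
    refine le_trans (le_of_eq ?_) h4
    push_cast
    rw [div_one]
    congr 2
    ring
  linarith

/-- **Subexponentially many rounds of conditioning do not improve the exponent of Delsarte's linear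
program.** (1) The bounds `SOS a b t n d` are valid and decrease in `a`, `b` and `t`; for `a ≥ 1` they
are at most `LP n d`. (2) Weights do not improve them. (3) For every `0 < δ < 1/2` there is a point
`(δ, θ)` on the curve. (4) For every point `(δ, θ)` of the curve, `θ` is larger than `1 - H(δ)`, it is
the exponent of Delsarte's linear program for the distance `⌈δ n⌉`, and for every `ε > 0` there is
`c > 0` such that for all large `n` and all `1 ≤ a ≤ 2^(c n)`, `b ≤ 2^(c n)` the bound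
`SOS a b 1 n ⌈δ n⌉` is between `2^((θ - ε) n)` and `2^((θ + ε) n)`. -/
theorem result :
    (∀ a b t n d : ℕ, 1 ≤ t → (A n d : ℝ) ≤ SOS a b t n d ∧
      (∀ a' b' t' : ℕ, a ≤ a' → b ≤ b' → t ≤ t' → SOS a' b' t' n d ≤ SOS a b t n d) ∧
      (1 ≤ a → 1 ≤ d → SOS a b t n d ≤ LP n d)) ∧
    (∀ (a b t n d : ℕ) (w : (Fin n → Bool) → ℝ), 1 ≤ t → (∀ x, 0 ≤ w x) →
      SOS a b t n d * ∑ x, w x ≤ 2 ^ n * weightedSOS a b t n d w) ∧
    (∀ δ : ℝ, 0 < δ → δ < 1 / 2 → ∃ θ, (δ, θ) ∈ Curve) ∧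
    ∀ δ θ : ℝ, (δ, θ) ∈ Curve → 1 - H δ < θ ∧
      Tendsto (fun n : ℕ => Real.logb 2 (LP n ⌈δ * n⌉₊) / n) atTop (𝓝 θ) ∧
      ∀ ε : ℝ, 0 < ε → ∃ c : ℝ, 0 < c ∧ ∀ᶠ n : ℕ in atTop, ∀ a b : ℕ, 1 ≤ a →
        (a : ℝ) ≤ 2 ^ (c * n) → (b : ℝ) ≤ 2 ^ (c * n) →
          (2 : ℝ) ^ ((θ - ε) * n) ≤ SOS a b 1 n ⌈δ * n⌉₊ ∧
            SOS a b 1 n ⌈δ * n⌉₊ ≤ 2 ^ ((θ + ε) * n) := by
  refine ⟨fun a b t n d ht => ⟨A_le a b t n d ht, fun a' b' t' ha hb htt => ?_, fun ha hd => ?_⟩,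
    fun a b t n d w ht hw => ?_, on_curve,
    fun δ θ hp => ⟨?_, LP_limit hp, fun ε hε => SOS_limit hp ε hε⟩⟩
  · rw [SOS_eq, SOS_eq]
    exact SO3_anti ha hb ht htt
  · rw [SOS_eq, LP_eq]
    exact SO3_le_lp k7_chr ha ht hd
  · rw [SOS_eq, SOSW_eq]
    exact weight_SO ht hw
  · have h1 := gv hp
    have h2 := gain_pos (point hp).1 (lt_half hp)
    linarith

end Pool.Agent.Results.MP_0430e4_lc.SubexponentialRounds
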